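import Mathlib
import Pool.Agent.H1.MYDefs
import Pool.Agent.H1.MYC

open Set Filter Topology Pool.Agent.H1.MY

theorem Pool.Agent.Results.MP_1775bc_an.Full.result (n : ℕ)
    (f : ℝ → EuclideanSpace ℝ (Fin n) → EuclideanSpace ℝ (Fin n))
    (J : ℝ → EuclideanSpace ℝ (Fin n) → EuclideanSpace ℝ (Fin n) →L[ℝ] EuclideanSpace ℝ (Fin n))
    (hf : ContinuousOn (fun p : ℝ × EuclideanSpace ℝ (Fin n) => f p.1 p.2) (Ici 0 ×ˢ univ))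
    (hJ : ContinuousOn (fun p : ℝ × EuclideanSpace ℝ (Fin n) => J p.1 p.2) (Ici 0 ×ˢ univ))
    (hd : ∀ t, 0 ≤ t → ∀ y, HasFDerivAt (f t) (J t y) y)
    (h0 : ∀ t, 0 ≤ t → f t 0 = 0)
    (h3 : ∀ w : ℝ → EuclideanSpace ℝ (Fin n), PwCont w → NUStable (fun t => J t (w t)))
    (t₀ : ℝ) (ht₀ : 0 ≤ t₀) :
    (∀ η : ℝ, 0 < η → ∃ δ : ℝ, 0 < δ ∧
      ∀ x, IsSol f t₀ x → ‖x t₀‖ < δ → ∀ t, t₀ ≤ t → ‖x t‖ < η) ∧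
    ∀ x, IsSol f t₀ x → Tendsto x atTop (𝓝 0) :=
  main f J hf hJ hd h0 h3 t₀ ht₀
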